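import Pool.Agent.H22.AF.Final

/-! Iterates of the associated form map on binary forms (problem MP_6257c5_ag, Q1 for `n = 2`). -/

set_option autoImplicit false

namespace Pool.Agent.Results.MP_6257c5_ag.BinaryForms

open Pool.Agent.H22.AF

/-- For every `d ≥ 4` there is one binary form `f 0` of degree `d` all of whose iterated
associated forms `f 1, f 2, ...` exist and are nondegenerate; so for `n = 2` every iterate of the
associated form map is a well-defined rational map. -/
theorem result (d : ℕ) (hd : 4 ≤ d) :
    ∃ f : ℕ → MvPolynomial (Fin 2) ℂ,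
      (∀ k, (f k).IsHomogeneous (degSeq 2 d k)) ∧
      (∀ k, Nondegenerate (f k)) ∧
      ∀ k F, IsAssociated (degSeq 2 d k) (f k) F ↔ F = f (k + 1) := by
  obtain ⟨f, hf⟩ := exists_seq d hd
  exact ⟨f, fun k => (hf k).1.isHomogeneous, fun k => (hf k).1.nondegenerate (le_degSeq hd k),
    fun k => (hf k).2⟩

end Pool.Agent.Results.MP_6257c5_ag.BinaryForms
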